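import Mathlib
import Pool.Agent.H66.SR2

open Finset Pool.Agent.H66.SR

namespace Pool.Agent.Results.MP_346585_al.Excellent

/-- **Question 1 of MP_346585_al, answered affirmatively.**  Let `Δ` be a finite simplicial
complex, `A` an excellent set of faces of `Δ`, `k` a field and `ℓ` a natural number.  If `Δ`
satisfies Serre's condition `(S_ℓ)` over `k`, then so does `Δ_A`, the subcomplex obtained by
removing all faces that contain a member of `A`. -/
theorem result (k : Type) [Field k] {V : Type} [Fintype V] [LinearOrder V]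
    (Δ A : Set (Finset V)) (hΔ : IsComplex Δ) (hA : Excellent Δ A) (ℓ : ℕ)
    (hS : Serre k Δ ℓ) : Serre k (del Δ A) ℓ := by
  classical
  rintro F hF n hn ⟨G0, hG0, hG0c⟩
  have hlinkdown : ∀ s ∈ link Δ F, ∀ t, t ⊆ s → t ∈ link Δ F := by
    rintro s ⟨hs1, hs2⟩ t hts
    exact ⟨disjoint_of_subset_left hts hs1, hΔ.2 _ hs2 _ (union_subset_union_left hts)⟩
  by_cases hn0 : n = 0
  · subst hn0
    apply hvanish_zero _ ⟨G0, hG0, hG0c⟩
    rintro s ⟨hs1, hs2, hs3⟩ t hts
    refine ⟨disjoint_of_subset_left hts hs1, hΔ.2 _ hs2 _ (union_subset_union_left hts), ?_⟩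
    intro σ hσ hσt
    exact hs3 σ hσ (hσt.trans (union_subset_union_left hts))
  have hℓ : 2 ≤ ℓ := by omega
  obtain ⟨hG0d, hG0m, hG0A⟩ := hG0
  let A' : Finset (Finset V) :=
    ((univ : Finset (Finset V)).filter (fun σ => σ ∈ A ∧ σ ∪ F ∈ Δ)).image (fun σ => σ \ F)
  have hA' : ∀ τ, τ ∈ A' ↔ ∃ σ, σ ∈ A ∧ σ ∪ F ∈ Δ ∧ σ \ F = τ := by
    intro τ
    simp [A', and_assoc]
  have hlink : link (del Δ A) F = del (link Δ F) (A' : Set (Finset V)) := by
    ext G
    constructor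
    · rintro ⟨h1, h2, h3⟩
      refine ⟨⟨h1, h2⟩, ?_⟩
      intro τ hτ hτG
      obtain ⟨σ, hσ, -, rfl⟩ := (hA' τ).1 (by simpa using hτ)
      refine h3 σ hσ ?_
      intro x hx
      by_cases hxF : x ∈ F
      · exact mem_union_right _ hxF
      · exact mem_union_left _ (hτG (mem_sdiff.2 ⟨hx, hxF⟩))
    · rintro ⟨⟨h1, h2⟩, h3⟩
      refine ⟨h1, h2, ?_⟩
      intro σ hσ hσG
      have h4 : σ ∪ F ∈ Δ := hΔ.2 _ h2 _ (union_subset hσG subset_union_right)
      apply h3 (σ \ F) (by simpa using (hA' _).2 ⟨σ, hσ, h4, rfl⟩)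
      intro x hx
      rw [mem_sdiff] at hx
      rcases mem_union.1 (hσG hx.1) with h | h
      · exact h
      · exact absurd h hx.2
  rw [hlink]
  apply step hlinkdown
  · intro τ hτ τ' hτ' hne hmem
    obtain ⟨σ, hσ, -, rfl⟩ := (hA' τ).1 hτ
    obtain ⟨σ', hσ', -, rfl⟩ := (hA' τ').1 hτ'
    apply hA.1.2 σ hσ σ' hσ' (fun h => hne (by rw [h]))
    apply hΔ.2 _ hmem.2
    intro x hx
    simp only [mem_union, mem_sdiff] at hx ⊢
    tauto
  · exact hS F hF.1 n hn ⟨G0, ⟨hG0d, hG0m⟩, hG0c⟩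
  · intro τ hτ hcard
    obtain ⟨σ, hσ, hσF, rfl⟩ := (hA' τ).1 hτ
    have hdis : Disjoint (σ \ F) F := sdiff_disjoint
    have hpos : 0 < (σ \ F).card := by
      rw [card_pos]
      by_contra hne
      rw [not_nonempty_iff_eq_empty, sdiff_eq_empty_iff_subset] at hne
      exact hF.2 σ hσ hne
    rw [link_link hdis]
    have hmem : F ∪ σ \ F ∈ Δ := by
      rw [union_sdiff_self_eq_union, union_comm]; exact hσF
    apply hS _ hmem
    · omega
    · obtain ⟨F1, hF1, hs1⟩ := exists_facet Δ hG0m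
      obtain ⟨F2, hF2, hs2⟩ := exists_facet Δ hmem
      have hpure := pure hΔ hℓ hS (Fintype.card V) ∅ hΔ.1 (by simp) F1 F2 hF1 hF2
        (empty_subset _) (empty_subset _)
      obtain ⟨σ0, hσ0, hσ0s⟩ := hA.2 F1 hF1
      have hne : G0 ∪ F ≠ F1 := by
        rintro rfl
        exact hG0A σ0 hσ0 hσ0s
      have hlt := card_lt_card (Finset.ssubset_iff_subset_ne.2 ⟨hs1, hne⟩)
      rw [card_union_of_disjoint hG0d] at hlt
      refine ⟨F2 \ (F ∪ σ \ F), ⟨sdiff_disjoint, ?_⟩, ?_⟩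
      · rw [sdiff_union_of_subset hs2]; exact hF2.1
      · rw [card_sdiff_of_subset hs2, card_union_of_disjoint hdis.symm]
        omega

end Pool.Agent.Results.MP_346585_al.Excellent
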